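import Pool.Agent.L7h93.SR.Rank
import Pool.Agent.L7h1.SR.Stm

/-!
# At least half of the expected rank of the `p`-adic regulator (project SR)
-/

set_option autoImplicit false
set_option linter.unusedSectionVars false

namespace Pool.Agent.L7h93.SR

open NumberField TensorProduct Pool.Agent.W289.SL Module
open Pool.Agent.W332.SL6
open Pool.Agent.H301R2.SSE (ortho_le)
open Pool.Agent.Helper864WL (HasCo tw exists_alg_basis UU)
open Pool.Agent.W254.PA (LgP exists_theta)

variable {p : ℕ} [Fact p.Prime]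

section lin

variable {E : Type} [Field E]

lemma echelon_indep {n m : ℕ} (e : Fin n → Fin m) (f : Fin n → Fin m → E)
    (h : ∀ i i', f i' (e i) = if i = i' then 1 else 0) : LinearIndependent E f := by
  classical
  rw [Fintype.linearIndependent_iff]
  intro c hc k
  have h1 := congrFun hc (e k)
  rw [Finset.sum_apply, Pi.zero_apply, Finset.sum_eq_single k] at h1
  · rw [Pi.smul_apply, smul_eq_mul, h, if_pos rfl, mul_one] at h1
    exact h1
  · intro k' _ hk'
    rw [Pi.smul_apply, smul_eq_mul, h, if_neg (Ne.symm hk'), mul_zero]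
  · intro h; exact absurd (Finset.mem_univ _) h

/-- zero blocks of an invertible matrix -/
lemma block_le {n n₁ n₂ : ℕ} (P : Fin n → Fin n → E) (hP : LinearIndependent E P)
    (F : Fin n₁ → Fin n → E) (G : Fin n₂ → Fin n → E) (hF : LinearIndependent E F)
    (hG : LinearIndependent E G) (h : ∀ i j, ∑ x, ∑ y, F i x * G j y * P x y = 0) :
    n₁ + n₂ ≤ n := by
  classical
  -- the vectors `F P`
  let T : (Fin n → E) →ₗ[E] (Fin n → E) := Fintype.linearCombination E P
  have hT : Function.Injective T := (linearIndependent_iff_injective_fintypeLinearCombination).1 hP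
  have hFP : LinearIndependent E (fun i => T (F i)) := hF.map' T (LinearMap.ker_eq_bot.2 hT)
  have h1 := ortho_le (Submodule.span E (Set.range fun i => T (F i)))
    (Submodule.span E (Set.range G)) (by
      intro v hv c hc
      refine Submodule.span_induction (p := fun v _ => ∑ i, v i * c i = 0) ?_ ?_ ?_ ?_ hv
      · rintro _ ⟨i, rfl⟩
        refine Submodule.span_induction (p := fun c _ => ∑ y, T (F i) y * c y = 0) ?_ ?_ ?_ ?_ hc
        · rintro _ ⟨j, rfl⟩
          rw [← h i j, Finset.sum_comm]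
          refine Finset.sum_congr rfl fun y _ => ?_
          show (∑ x, F i x • P x) y * G j y = _
          rw [Finset.sum_apply, Finset.sum_mul]
          refine Finset.sum_congr rfl fun x _ => ?_
          rw [Pi.smul_apply, smul_eq_mul]
          ring
        · simp
        · intro a b _ _ ha hb
          simp only [Pi.add_apply, mul_add, Finset.sum_add_distrib, ha, hb, add_zero]
        · intro a b _ hb
          have h2 : ∀ y, T (F i) y * (a • b) y = a * (T (F i) y * b y) := by
            intro y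
            rw [Pi.smul_apply, smul_eq_mul]
            ring
          rw [Finset.sum_congr rfl fun y _ => h2 y, ← Finset.mul_sum, hb, mul_zero]
      · simp
      · intro a b _ _ ha hb
        simp only [Pi.add_apply, add_mul, Finset.sum_add_distrib, ha, hb, add_zero]
      · intro a b _ hb
        have h2 : ∀ y, (a • b) y * c y = a * (b y * c y) := by
          intro y
          rw [Pi.smul_apply, smul_eq_mul]
          ring
        rw [Finset.sum_congr rfl fun y _ => h2 y, ← Finset.mul_sum, hb, mul_zero])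
  rw [finrank_span_eq_card hFP, finrank_span_eq_card hG, Fintype.card_fin, Fintype.card_fin] at h1
  exact h1

end lin

section

variable {H : Type} [Field H] [NumberField H]

lemma AU_of_hasCo {x : UM p H} (hx : HasCo 1 x) : x ∈ AU p H := by
  refine AddSubmonoid.closure_induction (motive := fun x _ => x ∈ AU p H) ?_ ?_ ?_ hx
  · rintro _ ⟨a, ha, u, rfl⟩
    obtain ⟨b, rfl⟩ := Submodule.mem_one.1 ha
    have h1 : (algebraMap (algebraicClosure ℚ ℂ_[p]) ℂ_[p] b ⊗ₜ[ℤ] u : UM p H) =
        (b : ℂ_[p]) • ((1 : ℂ_[p]) ⊗ₜ[ℤ] u) := by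
      rw [TensorProduct.smul_tmul', smul_eq_mul, mul_one]
      rfl
    rw [h1]
    exact smul_mem_AU (one_tmul_mem u) (mem_algebraicClosure_iff.1 b.2)
  · exact zero_mem _
  · rintro x y - - h1 h2
    exact add_mem h1 h2

lemma logLin_memP {L : ℂ_[p] → ℂ_[p]} (hL : IsIwasawaLog p L) (σ : H →+* ℂ_[p]) {x : UM p H}
    (hx : x ∈ AU p H) : logLin hL σ x ∈ Submodule.span (algebraicClosure ℚ ℂ_[p])
      ((LgP p (𝕂 := ℂ_[p]) : Submodule ℚ ℂ_[p]) : Set ℂ_[p]) := by
  refine Submodule.span_induction
    (p := fun x _ => logLin hL σ x ∈ Submodule.span (algebraicClosure ℚ ℂ_[p])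
      ((LgP p (𝕂 := ℂ_[p]) : Submodule ℚ ℂ_[p]) : Set ℂ_[p])) ?_ ?_ ?_ ?_ hx
  · rintro _ ⟨u, rfl⟩
    rw [logLin_tmul', one_mul]
    exact Submodule.subset_span (log_mem hL (nearU_unit σ _))
  · rw [map_zero]; exact zero_mem _
  · rintro x y - - h1 h2
    rw [map_add]; exact add_mem h1 h2
  · rintro c x - h
    have h1 : c • x = (c : ℂ_[p]) • x := rfl
    rw [h1, map_smul]
    exact Submodule.smul_mem _ c h

instance finUM : Module.Finite ℂ_[p] (UM p H) := by
  classical
  refine ⟨⟨(Finset.univ.image fun k : Fin (Units.rank H) => ((1 : ℂ_[p]) ⊗ₜ[ℤ] fu H k : UM p H)), ?_⟩⟩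
  rw [eq_top_iff]
  intro x _
  obtain ⟨b, rfl⟩ := decomp x
  refine Submodule.sum_mem _ fun k _ => Submodule.smul_mem _ _ (Submodule.subset_span ?_)
  simp

/-- a basis of a subspace defined over the algebraic numbers -/
lemma alg_basis (X : Submodule ℂ_[p] (UM p H))
    (hX : ∀ φ : ℂ_[p] →ₗ[algebraicClosure ℚ ℂ_[p]] ℂ_[p], ∀ x ∈ X, tw φ x ∈ X) :
    ∃ b : Fin (finrank ℂ_[p] X) → UM p H, LinearIndependent ℂ_[p] b ∧ (∀ k, b k ∈ X) ∧
      (∀ k, b k ∈ AU p H) ∧ ∀ x ∈ X, ∃ c : Fin (finrank ℂ_[p] X) → ℂ_[p], x = ∑ k, c k • b k := by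
  classical
  let pr0 : (Fin 1 → UU p H) →ₗ[ℂ_[p]] UU p H := LinearMap.proj 0
  let X' : Submodule ℂ_[p] (Fin 1 → UU p H) := X.comap pr0
  let E : X' ≃ₗ[ℂ_[p]] X :=
    LinearEquiv.ofBijective (pr0.restrict (fun x hx => hx) : X' →ₗ[ℂ_[p]] X) (by
      constructor
      · intro x y h
        apply Subtype.ext
        funext j
        have h1 : (x : Fin 1 → UU p H) 0 = (y : Fin 1 → UU p H) 0 := congrArg Subtype.val h
        rw [Fin.eq_zero j]
        exact h1
      · intro x
        exact ⟨⟨fun _ => x, x.2⟩, rfl⟩)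
  have hfin : finrank ℂ_[p] X' = finrank ℂ_[p] X := E.finrank_eq
  have hfd : FiniteDimensional ℂ_[p] X' := Module.Finite.equiv E.symm
  obtain ⟨B, hB⟩ := exists_alg_basis X' (fun φ x hx => hX φ _ hx)
  let B1 : Basis (Fin (finrank ℂ_[p] X)) ℂ_[p] X := (B.map E).reindex (finCongr hfin)
  refine ⟨fun k => (B1 k : UM p H), ?_, fun k => (B1 k).2, ?_, ?_⟩
  · exact B1.linearIndependent.map' X.subtype (Submodule.ker_subtype _)
  · intro k
    apply AU_of_hasCo
    have h1 : ((B1 k : X) : UM p H) = ((B ((finCongr hfin).symm k) : X') : Fin 1 → UU p H) 0 := by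
      show (((B.map E).reindex (finCongr hfin) k : X) : UM p H) = _
      rw [Basis.reindex_apply, Basis.map_apply]
      rfl
    show HasCo 1 ((B1 k : X) : UM p H)
    rw [h1]
    exact hB _ 0
  · intro x hx
    refine ⟨fun k => B1.repr ⟨x, hx⟩ k, ?_⟩
    have h1 := congrArg Subtype.val (B1.sum_repr ⟨x, hx⟩)
    simp only [Submodule.coe_sum, Submodule.coe_smul] at h1
    exact h1.symm

/-- **At least half of the expected rank.** -/
theorem half (X : Submodule ℂ_[p] (UM p H))
    (hX : ∀ φ : ℂ_[p] →ₗ[algebraicClosure ℚ ℂ_[p]] ℂ_[p], ∀ x ∈ X, tw φ x ∈ X)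
    (I : Set (H →+* ℂ_[p])) (θ : ℂ_[p] ≃+* ℂ)
    (hI : ∀ x ∈ X, (∀ σ ∈ I, lam θ ((θ : ℂ_[p] →+* ℂ).comp σ) x = 0) → x = 0)
    (L : ℂ_[p] → ℂ_[p]) (hL : IsIwasawaLog p L) (W : Submodule ℂ_[p] (UM p H)) (hWX : W ≤ X)
    (hW : ∀ x ∈ W, ∀ σ ∈ I, logLin hL σ x = 0) :
    2 * finrank ℂ_[p] W ≤ finrank ℂ_[p] X := by
  classical
  obtain ⟨n, hn⟩ : ∃ n, n = finrank ℂ_[p] X := ⟨_, rfl⟩
  have hbas := alg_basis X hX
  rw [← hn] at hbas ⊢
  obtain ⟨b, hbi, hbX, hbA, hbs⟩ := hbas
  -- the archimedean rows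
  let v : I → (Fin n → ℂ_[p]) := fun σ j => lam θ ((θ : ℂ_[p] →+* ℂ).comp σ.1) (b j)
  have hspan : Submodule.span ℂ_[p] (Set.range v) = ⊤ := by
    by_contra hne
    obtain ⟨f, hf0, hf⟩ := Submodule.exists_le_ker_of_lt_top _ (lt_top_iff_ne_top.2 hne)
    apply hf0
    have h1 : ∀ w : Fin n → ℂ_[p], f w = ∑ j, w j * f (Pi.single j 1) := by
      intro w
      conv_lhs => rw [← Finset.univ_sum_single w]
      rw [map_sum]
      refine Finset.sum_congr rfl fun j _ => ?_
      have h2 : (Pi.single j (w j) : Fin n → ℂ_[p]) = w j • Pi.single j 1 := by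
        rw [← Pi.single_smul, smul_eq_mul, mul_one]
      rw [h2, map_smul, smul_eq_mul]
    have h3 : ∑ j, f (Pi.single j 1) • b j = 0 := by
      apply hI _ (Submodule.sum_mem _ fun j _ => Submodule.smul_mem _ _ (hbX j))
      intro σ hσ
      have h4 : f (v ⟨σ, hσ⟩) = 0 := hf (Submodule.subset_span ⟨_, rfl⟩)
      rw [h1] at h4
      rw [map_sum, ← h4]
      refine Finset.sum_congr rfl fun j _ => ?_
      rw [map_smul, smul_eq_mul, mul_comm]
    have h5 := Fintype.linearIndependent_iff.1 hbi _ h3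
    apply LinearMap.ext
    intro w
    rw [h1, LinearMap.zero_apply]
    refine Finset.sum_eq_zero fun j _ => ?_
    rw [h5, mul_zero]
  obtain ⟨κ, a, ha, hsp, hli⟩ := exists_linearIndependent' ℂ_[p] v
  have hfinκ : Finite κ := hli.finite
  let _ : Fintype κ := Fintype.ofFinite κ
  have hcard : Fintype.card κ = n := by
    have h1 := finrank_span_eq_card hli
    rw [hsp, hspan, finrank_top, Module.finrank_fintype_fun_eq_card, Fintype.card_fin] at h1
    exact h1.symm
  let en : Fin n ≃ κ := (Fintype.equivFinOfCardEq hcard).symm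
  let s : Fin n → (H →+* ℂ_[p]) := fun i => (a (en i)).1
  have hsI : ∀ i, s i ∈ I := fun i => (a (en i)).2
  have hP : LinearIndependent ℂ_[p]
      (fun i j => lam θ ((θ : ℂ_[p] →+* ℂ).comp (s i)) (b j) : Fin n → Fin n → ℂ_[p]) :=
    hli.comp en en.injective
  -- the `p`-adic matrix
  let M : Fin n → Fin n → ℂ_[p] := fun i j => logLin hL (s i) (b j)
  have hM : ∀ i j, M i j ∈ Submodule.span (algebraicClosure ℚ ℂ_[p])
      ((LgP p (𝕂 := ℂ_[p]) : Submodule ℚ ℂ_[p]) : Set ℂ_[p]) :=
    fun i j => logLin_memP hL _ (hbA j)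
  have hbal : Bal (algebraMap (algebraicClosure ℚ ℂ_[p]) ℂ_[p]) n n M := by
    intro n₁ n₂ e e' f g hf hg hfg
    have hle : n₁ + n₂ ≤ n := by
      refine block_le _ hP (fun i x => algebraMap _ ℂ_[p] (f i x))
        (fun j y => algebraMap _ ℂ_[p] (g j y)) ?_ ?_ ?_
      · refine echelon_indep e _ fun i i' => ?_
        rw [hf]
        split_ifs
        · exact map_one _
        · exact map_zero _
      · refine echelon_indep e' _ fun i i' => ?_
        rw [hg]
        split_ifs
        · exact map_one _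
        · exact map_zero _
      · intro i j
        obtain ⟨N, _, _, _, inc, hinc⟩ := exists_big p H
        choose τ hτ using fun x => hinc (s x)
        let z : UM p N := ∑ x, algebraMap _ ℂ_[p] (f i x) • push (τ x)
          (∑ y, algebraMap _ ℂ_[p] (g j y) • b y)
        have hz : z ∈ AU p N := by
          refine sum_mem fun x _ => smul_mem_AU (push_mem_AU _ (sum_mem fun y _ =>
            smul_mem_AU (hbA y) ?_)) ?_
          · exact mem_algebraicClosure_iff.1 (g j y).2
          · exact mem_algebraicClosure_iff.1 (f i x).2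
        have hz0 : z = 0 := by
          apply eq_zero_of_log hL inc hz
          rw [← hfg i j, map_sum]
          refine Finset.sum_congr rfl fun x _ => ?_
          rw [map_smul, logLin_push, hτ, map_sum, smul_eq_mul, Finset.mul_sum]
          refine Finset.sum_congr rfl fun y _ => ?_
          rw [map_smul, smul_eq_mul]
          ring
        have h1 := congrArg (lam θ ((θ : ℂ_[p] →+* ℂ).comp inc)) hz0
        rw [map_zero, map_sum] at h1
        rw [← h1]
        refine Finset.sum_congr rfl fun x _ => ?_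
        rw [map_smul, lam_push, RingHom.comp_assoc, hτ, map_sum, smul_eq_mul, Finset.mul_sum]
        refine Finset.sum_congr rfl fun y _ => ?_
        rw [map_smul, smul_eq_mul]
        ring
    calc n * n₁ + n * n₂ = n * (n₁ + n₂) := by ring
      _ ≤ n * n := Nat.mul_le_mul_left _ hle
  -- the factorization through the row space
  let R : Submodule ℂ_[p] (Fin n → ℂ_[p]) := Submodule.span ℂ_[p] (Set.range M)
  let BR := Module.finBasis ℂ_[p] R
  have hMR : ∀ i, M i ∈ R := fun i => Submodule.subset_span ⟨i, rfl⟩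
  have hrank := rank_bal_Q n n (finrank ℂ_[p] R) (fun i ρ => BR.repr ⟨M i, hMR i⟩ ρ)
    (fun ρ j => (BR ρ : Fin n → ℂ_[p]) j) M hM (by
      intro i j
      have h1 := congrArg (fun z : R => (z : Fin n → ℂ_[p]) j) (BR.sum_repr ⟨M i, hMR i⟩)
      simp only [Submodule.coe_sum, Submodule.coe_smul, Finset.sum_apply, Pi.smul_apply,
        smul_eq_mul] at h1
      exact h1.symm) hbal
  -- the coordinates of `W`
  let T : (Fin n → ℂ_[p]) →ₗ[ℂ_[p]] UM p H := Fintype.linearCombination ℂ_[p] b
  have hT : ∀ c, T c = ∑ k, c k • b k := fun c => rfl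
  let W' : Submodule ℂ_[p] (Fin n → ℂ_[p]) := W.comap T
  have hWW : finrank ℂ_[p] W ≤ finrank ℂ_[p] W' := by
    have h1 : W = W'.map T := by
      apply le_antisymm
      · intro x hx
        obtain ⟨c, hc⟩ := hbs x (hWX hx)
        refine ⟨c, ?_, ?_⟩
        · show T c ∈ W
          rw [hT, ← hc]
          exact hx
        · rw [hT, ← hc]
      · rintro _ ⟨c, hc, rfl⟩
        exact hc
    rw [h1]
    exact Submodule.finrank_map_le _ _
  have hort := ortho_le R W' (by
    intro v hv c hc
    refine Submodule.span_induction (p := fun v _ => ∑ i, v i * c i = 0) ?_ ?_ ?_ ?_ hv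
    · rintro _ ⟨i, rfl⟩
      have h1 := hW _ hc (s i) (hsI i)
      rw [hT, map_sum] at h1
      rw [← h1]
      refine Finset.sum_congr rfl fun j _ => ?_
      rw [map_smul, smul_eq_mul, mul_comm]
    · simp
    · intro a b _ _ ha hb
      simp only [Pi.add_apply, add_mul, Finset.sum_add_distrib, ha, hb, add_zero]
    · intro a b _ hb
      have h2 : ∀ y, (a • b) y * c y = a * (b y * c y) := by
        intro y
        rw [Pi.smul_apply, smul_eq_mul]
        ring
      rw [Finset.sum_congr rfl fun y _ => h2 y, ← Finset.mul_sum, hb, mul_zero])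
  rcases Nat.eq_zero_or_pos n with h0 | h0
  · have h1 := Submodule.finrank_mono hWX
    omega
  · have h1 : n ≤ 2 * finrank ℂ_[p] R := by
      have h2 : n * n ≤ n * (2 * finrank ℂ_[p] R) := by
        calc n * n ≤ finrank ℂ_[p] R * (n + n) := hrank
          _ = n * (2 * finrank ℂ_[p] R) := by ring
      exact Nat.le_of_mul_le_mul_left h2 h0
    omega

end

end Pool.Agent.L7h93.SR
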