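import Pool.Agent.L7h93.SR.Half

/-!
# The rank of the regulator `log_(Σ,p)` on the `χ`-part of the units (project SR)
-/

set_option autoImplicit false
set_option linter.unusedSectionVars false

namespace Pool.Agent.L7h93.SR

open NumberField TensorProduct Pool.Agent.W289.SL Module
open Pool.Agent.W332.SL6
open Pool.Agent.Helper864WL (HasCo tw exists_alg_basis UU tw_act tw_smul)
open Pool.Agent.W254.PA (LgP exists_theta)
open Pool.Agent.L7h1.SR (chiPart)

variable {p : ℕ} [Fact p.Prime]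

/-- the archimedean logarithms over a CM type separate the points -/
theorem cmt {F K H : Type} [Field F] [NumberField F] [IsTotallyReal F] [Field K] [NumberField K]
    [IsTotallyComplex K] [Algebra F K] (hFK : finrank F K = 2) [Field H] [NumberField H]
    [Algebra K H] (S : Set (K →+* ℂ_[p])) (hS : IsCMType p F K S) (θ : ℂ_[p] ≃+* ℂ) (x : UM p H)
    (hx : ∀ σ : H →+* ℂ_[p], σ.comp (algebraMap K H) ∈ S →
      lam θ ((θ : ℂ_[p] →+* ℂ).comp σ) x = 0) : x = 0 := by
  have : Algebra.IsQuadraticExtension F K := ⟨hFK⟩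
  have : FiniteDimensional F K := Module.finite_of_finrank_pos (by omega)
  have : IsGalois F K := inferInstance
  have hconj : ∀ b : K →+* ℂ, ∃ τ : K ≃ₐ[F] K, τ ≠ 1 ∧
      (starRingEnd ℂ).comp b = b.comp (τ : K →+* K) := by
    intro b
    obtain ⟨τ, hτ⟩ := exists_aut (K := F) ((starRingEnd ℂ).comp b) b (by
      have h1 : ComplexEmbedding.IsReal (b.comp (algebraMap F K)) := by
        rw [← InfinitePlace.isReal_mk_iff]
        exact IsTotallyReal.isReal _
      exact h1)
    refine ⟨τ, ?_, hτ⟩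
    rintro rfl
    refine IsTotallyComplex.complexEmbedding_not_isReal b ?_
    rw [ComplexEmbedding.isReal_iff]
    exact hτ
  have hback : ∀ s : H →+* ℂ, (θ : ℂ_[p] →+* ℂ).comp ((θ.symm : ℂ →+* ℂ_[p]).comp s) = s := by
    intro s
    ext y
    exact θ.apply_symm_apply _
  apply eq_zero_of_lam θ
  intro s
  by_cases h : ((θ.symm : ℂ →+* ℂ_[p]).comp s).comp (algebraMap K H) ∈ S
  · have h1 := hx _ h
    rwa [hback] at h1
  · obtain ⟨τ, hτ1, hτ⟩ := hconj (s.comp (algebraMap K H))
    have h2 := hS τ hτ1 (((θ.symm : ℂ →+* ℂ_[p]).comp s).comp (algebraMap K H))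
    have h3 : (((θ.symm : ℂ →+* ℂ_[p]).comp s).comp (algebraMap K H)).comp (τ : K →+* K) ∈ S := by
      by_contra h4
      exact h (h2.2 h4)
    have h5 := hx ((θ.symm : ℂ →+* ℂ_[p]).comp ((starRingEnd ℂ).comp s)) (by
      have h6 : ((θ.symm : ℂ →+* ℂ_[p]).comp ((starRingEnd ℂ).comp s)).comp (algebraMap K H) =
          (((θ.symm : ℂ →+* ℂ_[p]).comp s).comp (algebraMap K H)).comp (τ : K →+* K) := by
        have h7 : ((starRingEnd ℂ).comp s).comp (algebraMap K H) =
            (s.comp (algebraMap K H)).comp (τ : K →+* K) := hτ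
        rw [RingHom.comp_assoc, h7]
        rfl
      rw [h6]
      exact h3)
    rw [hback, lam_conj] at h5
    exact h5

/-- the `χ`-part is defined over the algebraic numbers -/
lemma chi_tw {K H : Type} [Field K] [NumberField K] [Field H] [NumberField H] [Algebra K H]
    (χ : (H ≃ₐ[K] H) →* ℂ_[p]ˣ) (φ : ℂ_[p] →ₗ[algebraicClosure ℚ ℂ_[p]] ℂ_[p]) (x : UM p H)
    (hx : x ∈ chiPart p K H χ) : tw φ x ∈ chiPart p K H χ := by
  have hfd : FiniteDimensional K H := inferInstance
  intro τ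
  have h1 : actLin p (τ : H →+* H) (tw φ x) = tw φ (actLin p (τ : H →+* H) x) :=
    (tw_act φ (τ : H →+* H) x).symm
  rw [h1, hx τ]
  exact tw_smul φ (chi_alg χ τ) x

/-- the regulator map `log_(S,p)` on `ℂ_p ⊗ 𝓞_H^×` -/
noncomputable def reg {K H : Type} [Field K] [Field H] [NumberField H] [Algebra K H]
    (S : Set (K →+* ℂ_[p])) {L : ℂ_[p] → ℂ_[p]} (hL : IsIwasawaLog p L) :
    UM p H →ₗ[ℂ_[p]] ({σ : H →+* ℂ_[p] // σ.comp (algebraMap K H) ∈ S} → ℂ_[p]) :=
  LinearMap.pi fun σ => logLin hL σ.1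

/-- the rank of the regulator map on the `χ`-part -/
noncomputable def regRank {K H : Type} [Field K] [Field H] [NumberField H] [Algebra K H]
    (S : Set (K →+* ℂ_[p])) (χ : (H ≃ₐ[K] H) →* ℂ_[p]ˣ) {L : ℂ_[p] → ℂ_[p]}
    (hL : IsIwasawaLog p L) : ℕ :=
  finrank ℂ_[p] (LinearMap.range ((reg (H := H) S hL).domRestrict (chiPart p K H χ)))

/-- **At least half of the rank.** -/
theorem half_rank {F K H : Type} [Field F] [NumberField F] [IsTotallyReal F] [Field K]
    [NumberField K] [IsTotallyComplex K] [Algebra F K] (hFK : finrank F K = 2) [Field H]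
    [NumberField H] [Algebra K H] (χ : (H ≃ₐ[K] H) →* ℂ_[p]ˣ) (S : Set (K →+* ℂ_[p]))
    (hS : IsCMType p F K S) {L : ℂ_[p] → ℂ_[p]} (hL : IsIwasawaLog p L) :
    finrank ℂ_[p] (chiPart p K H χ) ≤ 2 * regRank S χ hL := by
  obtain ⟨θ⟩ := exists_theta p
  have h1 := LinearMap.finrank_range_add_finrank_ker
    ((reg (H := H) S hL).domRestrict (chiPart p K H χ))
  let W : Submodule ℂ_[p] (UM p H) :=
    (LinearMap.ker ((reg (H := H) S hL).domRestrict (chiPart p K H χ))).map
      (chiPart p K H χ).subtype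
  have hW : finrank ℂ_[p] W =
      finrank ℂ_[p] (LinearMap.ker ((reg (H := H) S hL).domRestrict (chiPart p K H χ))) :=
    (LinearEquiv.finrank_eq (Submodule.equivMapOfInjective _ (Submodule.injective_subtype _) _)).symm
  have h2 := half (chiPart p K H χ) (fun φ x hx => chi_tw χ φ x hx)
    {σ : H →+* ℂ_[p] | σ.comp (algebraMap K H) ∈ S} θ (fun x _ hx => cmt hFK S hS θ x hx) L hL W
    (by rintro _ ⟨x, -, rfl⟩; exact x.2) (by
      rintro _ ⟨x, hx, rfl⟩ σ hσ
      exact congrFun (LinearMap.mem_ker.1 hx) ⟨σ, hσ⟩)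
  unfold regRank
  omega

end Pool.Agent.L7h93.SR
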