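import Pool.Agent.Helper864_WL.RankQ

/-!
# Waldschmidt's bound for the rank of matrices of `p`-adic logarithms, balanced matrices

`rank_K` and `rank_Q` of `Pool/Agent/Helper864_WL` assume that the entries are linearly independent over
the algebraic numbers. Here it suffices that the matrix is balanced: if the product of a subspace of
`ℚ̄^m` of dimension `n` and a subspace of `ℚ̄^l` of dimension `k` is zero then `l n + m k ≤ m l`.
-/

set_option autoImplicit false
set_option linter.unusedSectionVars false

namespace Pool.Agent.L7h93.SR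

open Module Finset Pool.Agent.H301R2.ZG Pool.Agent.W254.HP Pool.Agent.W254.PA
open Pool.Agent.H301R2.SSE (dg bs om om_alg om_ne cc mul_om ortho_le int_basis
  finrank_int_le_rat finrank_int_le_c tau tau_coe tau_eq_zero)
open Pool.Agent.Helper864WL (ObsProp0 partR arith_count obsProp0_padic)

/-- a balanced matrix over a field `E` of coefficients -/
def Bal {A : Type} [Field A] {E : Type} [Field E] (φ : E →+* A) (m l : ℕ) (a : Fin m → Fin l → A) :
    Prop :=
  ∀ (n k : ℕ) (e : Fin n → Fin m) (e' : Fin k → Fin l) (f : Fin n → Fin m → E)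
    (g : Fin k → Fin l → E), (∀ i i', f i' (e i) = if i = i' then 1 else 0) →
    (∀ i i', g i' (e' i) = if i = i' then 1 else 0) →
    (∀ i j, ∑ x, ∑ y, φ (f i x) * φ (g j y) * a x y = 0) → l * n + m * k ≤ m * l

variable (K : IntermediateField ℚ ℂ) [FiniteDimensional ℚ K] (𝓛 : Submodule ℚ ℂ)

lemma arith_end {m l D s κ e g R G : ℕ} (he : 1 ≤ e) (hem : e ≤ m) (hgl : g ≤ l)
    (hκ1 : κ + 1 = D * (m + l) * s) (hR : D * e ≤ R) (hG : G ≤ D * g) (hGl : G ≤ l * D)
    (hbal : l * e + m * g ≤ m * l)
    (h : (R + (l * D - G)) * (m * s) ≤ e * κ) : False := by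
  obtain ⟨g', hg'⟩ := Nat.exists_eq_add_of_le hgl
  have h0 : D * g' ≤ l * D - G := by
    have : l * D = D * g + D * g' := by rw [hg']; ring
    omega
  have h1 : (D * e + D * g') * (m * s) ≤ e * κ :=
    (Nat.mul_le_mul_right _ (Nat.add_le_add hR h0)).trans h
  have h2 : l * e ≤ m * g' := by
    have : m * l = m * g + m * g' := by rw [hg']; ring
    omega
  have h3 : e * κ + e = e * (D * (m + l) * s) := by rw [← hκ1]; ring
  have h4 : e * (D * (m + l) * s) ≤ (D * e + D * g') * (m * s) := by
    have h5 : e * (D * (m + l) * s) = D * s * (e * m) + D * s * (l * e) := by ring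
    have h6 : (D * e + D * g') * (m * s) = D * s * (e * m) + D * s * (m * g') := by ring
    rw [h5, h6]
    exact Nat.add_le_add_left (Nat.mul_le_mul_left _ h2) _
  omega

/-- **Waldschmidt's bound for the rank**, balanced matrices, coefficients in a number field. -/
theorem rank_bal_K (hO : ObsProp0 𝓛) (m l r : ℕ) (X : Fin m → Fin r → ℂ) (Y : Fin r → Fin l → ℂ)
    (a : Fin m → Fin l → ℂ) (u : Fin m → Fin l → Fin (dg K) → ℂ)
    (hu : ∀ i j h, u i j h ∈ 𝓛) (ha : ∀ i j, a i j = ∑ h, om K h * u i j h)
    (hXY : ∀ i j, a i j = ∑ ρ, X i ρ * Y ρ j)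
    (hbal : Bal (algebraMap K ℂ) m l a) : m * l ≤ r * (m + l) := by
  classical
  by_contra hcon
  rw [not_le] at hcon
  have hD : 1 ≤ dg K := Nat.one_le_iff_ne_zero.mpr (NeZero.ne (dg K))
  have hm : 0 < m := by
    rcases Nat.eq_zero_or_pos m with h | h
    · rw [h, zero_mul] at hcon; omega
    · exact h
  have hl : 0 < l := by
    rcases Nat.eq_zero_or_pos l with h | h
    · rw [h, mul_zero] at hcon; omega
    · exact h
  obtain ⟨s, hs⟩ : ∃ s, s = m + m * dg K + 1 := ⟨_, rfl⟩
  have hspos : 0 < s := by omega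
  obtain ⟨κ, hκ1⟩ : ∃ κ, κ + 1 = dg K * (m + l) * s := by
    refine ⟨dg K * (m + l) * s - 1, ?_⟩
    have : 0 < dg K * (m + l) * s := by positivity
    omega
  have hle : m * s ≤ κ := by
    have h1 : m * s + 1 ≤ dg K * (m + l) * s := by
      calc m * s + 1 ≤ m * s + l * s := by
            have : 0 < l * s := by positivity
            omega
        _ = 1 * (m + l) * s := by ring
        _ ≤ dg K * (m + l) * s := by gcongr
    omega
  obtain ⟨μ, hμ⟩ : ∃ μ, μ + m * s = κ := ⟨κ - m * s, by omega⟩
  obtain ⟨N, Rm, G0, hN1, hineq, hperp, hG0⟩ := partR K 𝓛 hO m l r X Y a u hu ha hXY κ μ (m * s) hμ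
    (arith_count hcon hD hs rfl hκ1 hμ) (by positivity)
  -- the annihilator of `N` over `K`
  let F : Submodule K (Fin m → K) :=
    { carrier := {c | ∀ α ∈ N, ∑ i, α i * ((c i : K) : ℂ) = 0}
      zero_mem' := fun α _ => by simp
      add_mem' := fun {x y} hx hy α hα => by
        have h1 := hx α hα
        have h2 := hy α hα
        calc ∑ i, α i * (((x + y) i : K) : ℂ) = ∑ i, α i * ((x i : K) : ℂ) +
            ∑ i, α i * ((y i : K) : ℂ) := by
              rw [← Finset.sum_add_distrib]
              refine Finset.sum_congr rfl fun i _ => ?_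
              rw [Pi.add_apply]
              push_cast
              ring
          _ = 0 := by rw [h1, h2, add_zero]
      smul_mem' := fun c x hx α hα => by
        have h1 := hx α hα
        calc ∑ i, α i * (((c • x) i : K) : ℂ) = (c : ℂ) * ∑ i, α i * ((x i : K) : ℂ) := by
              rw [Finset.mul_sum]
              refine Finset.sum_congr rfl fun i _ => ?_
              rw [Pi.smul_apply, smul_eq_mul]
              push_cast
              ring
          _ = 0 := by rw [h1, mul_zero] }
  obtain ⟨e, v, hv, hev⟩ := exists_dual F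
  have hFN : finrank K F + finrank ℂ N ≤ m := by
    let W : Submodule ℂ (Fin m → ℂ) :=
      Submodule.span ℂ (Set.range fun k : Fin (finrank K F) => fun i => ((v k i : K) : ℂ))
    have hli : LinearIndependent ℂ (fun k : Fin (finrank K F) => fun i => ((v k i : K) : ℂ)) := by
      rw [Fintype.linearIndependent_iff]
      intro c hc k
      have h1 := congrFun hc (e k)
      rw [Finset.sum_apply, Pi.zero_apply, Finset.sum_eq_single k] at h1
      · have h2 := hev k k
        simp only [Pi.smul_apply, smul_eq_mul, h2, if_true, OneMemClass.coe_one, mul_one] at h1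
        exact h1
      · intro k' _ hk'
        have h2 := hev k k'
        rw [if_neg (Ne.symm hk')] at h2
        simp [h2]
      · intro h; exact absurd (Finset.mem_univ _) h
    have hW : finrank ℂ W = finrank K F := by
      have h1 := finrank_span_eq_card hli
      rw [Fintype.card_fin] at h1
      exact h1
    have h1 := ortho_le N W (by
      intro α hα c hc
      refine Submodule.span_induction (p := fun c _ => ∑ i, α i * c i = 0) ?_ ?_ ?_ ?_ hc
      · rintro _ ⟨k, rfl⟩
        exact hv k α hα
      · simp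
      · intro x y _ _ hx hy
        simp only [Pi.add_apply, mul_add, Finset.sum_add_distrib, hx, hy, add_zero]
      · intro b x _ hx
        have h2 : ∀ i, α i * (b • x) i = b * (α i * x i) := by
          intro i
          rw [Pi.smul_apply, smul_eq_mul]
          ring
        rw [Finset.sum_congr rfl fun i _ => h2 i, ← Finset.mul_sum, hx, mul_zero])
    omega
  have hRm := finrank_Rm_ge K Rm F (fun t ht α hα => hperp t ht α hα)
  -- the forms over `K` which vanish on `F`
  let gF : (Fin m → K) →ₗ[K] (Fin (finrank K F) → K) :=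
    { toFun := fun c k => ∑ i, c i * v k i
      map_add' := by
        intro a b; funext k
        simp only [Pi.add_apply, add_mul, Finset.sum_add_distrib]
      map_smul' := by
        intro c a; funext k
        simp only [Pi.smul_apply, smul_eq_mul, RingHom.id_apply, mul_assoc, Finset.mul_sum] }
  have hker : m ≤ finrank K F + finrank K (LinearMap.ker gF) := by
    have h1 := LinearMap.finrank_range_add_finrank_ker gF
    rw [Module.finrank_fintype_fun_eq_card, Fintype.card_fin] at h1
    have h2 := Submodule.finrank_le (LinearMap.range gF)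
    rw [Module.finrank_fintype_fun_eq_card, Fintype.card_fin] at h2
    omega
  have hkerF : ∀ c ∈ LinearMap.ker gF, ∀ f ∈ F, ∑ i, c i * f i = 0 := by
    intro c hcker f hf
    have h1 : ∀ i, f i = ∑ k, f (e k) * v k i := fun i => pivot_expand F e v hv hev f hf i
    have h2 : ∀ i, c i * f i = ∑ k, f (e k) * (c i * v k i) := by
      intro i
      rw [h1 i, Finset.mul_sum]
      refine Finset.sum_congr rfl fun k _ => ?_
      ring
    rw [Finset.sum_congr rfl fun i _ => h2 i, Finset.sum_comm]
    refine Finset.sum_eq_zero fun k _ => ?_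
    rw [← Finset.mul_sum]
    have h3 : ∑ i, c i * v k i = 0 := congrFun (LinearMap.mem_ker.1 hcker) k
    rw [h3, mul_zero]
  -- the pairing of the forms and the group `G0`
  have hpair : ∀ c ∈ LinearMap.ker gF, ∀ s ∈ G0,
      ∑ i, ∑ j, ((c i : K) : ℂ) * ((kk K (fun p => (s p : ℚ)) j : K) : ℂ) * a i j = 0 := by
    intro c hcker s hs
    have hc := hkerF c hcker
    obtain ⟨κ', hκ'⟩ := comb_twoPi K Rm (fun q => c (f1 q) * bs K (f2 q)) (by
      intro t ht
      have h1 := hc _ (fun α hα => hperp t ht α hα)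
      have h2 := sum_kk K t (fun i => (c i : ℂ))
      have h3 : ∑ i, ((kk K t i : K) : ℂ) * (c i : ℂ) = 0 := by
        have h4 := congrArg (fun z : K => (z : ℂ)) h1
        push_cast at h4
        rw [← h4]
        refine Finset.sum_congr rfl fun i _ => ?_
        ring
      rw [h3] at h2
      rw [← h2]
      refine Finset.sum_congr rfl fun q _ => ?_
      push_cast
      unfold om
      ring) (fun q => ∑ p, um K u (f1 q) (f2 q) p * (s p : ℂ)) 0 (fun m' hm' => ⟨0, by
        rw [hG0 s hs m' hm']; simp⟩)
    rw [mul_zero] at hκ'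
    have h5 : ∑ q, ((c (f1 q) * bs K (f2 q) : K) : ℂ) *
        ∑ p, um K u (f1 q) (f2 q) p * (s p : ℂ) =
        ∑ i, ∑ j, ((c i : K) : ℂ) * ((kk K (fun p => (s p : ℚ)) j : K) : ℂ) * a i j := by
      rw [sum_pr]
      refine Finset.sum_congr rfl fun i _ => ?_
      have h6 : ∀ h ∈ (Finset.univ : Finset (Fin (dg K))),
          ((c (f1 (pr i h)) * bs K (f2 (pr i h)) : K) : ℂ) *
          ∑ p, um K u (f1 (pr i h)) (f2 (pr i h)) p * (s p : ℂ) =
          ∑ p, (c i : ℂ) * (s p : ℂ) * (om K h * um K u i h p) := by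
        intro h _
        rw [f1_pr, f2_pr, Finset.mul_sum]
        refine Finset.sum_congr rfl fun p _ => ?_
        push_cast
        unfold om
        ring
      rw [Finset.sum_congr rfl h6, Finset.sum_comm]
      have h7 : ∀ p ∈ (Finset.univ : Finset (Fin (l * dg K))),
          ∑ h, (c i : ℂ) * (s p : ℂ) * (om K h * um K u i h p) =
          (c i : ℂ) * (om K (f2 p) * a i (f1 p) * ((s p : ℚ) : ℂ)) := by
        intro p _
        rw [← Finset.mul_sum]
        have h8 := factA K a (fun _ _ => (0 : K)) u (by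
          intro i j
          rw [ha i j]
          simp) i p
        have h9 : av K (fun _ _ => (0 : K)) i p = 0 := by
          unfold av
          simp
        rw [h9, zero_add] at h8
        rw [← h8]
        push_cast
        ring
      rw [Finset.sum_congr rfl h7, ← Finset.mul_sum, sum_kk K (fun p => (s p : ℚ)) (fun j => a i j),
        Finset.mul_sum]
      refine Finset.sum_congr rfl fun j _ => ?_
      ring
    rw [h5] at hκ'
    exact hκ'
  -- the space generated by `G0`
  let Z : Submodule K (Fin l → K) :=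
    Submodule.span K {z | ∃ s ∈ G0, z = kk K (fun p => (s p : ℚ))}
  have hGZ := finrank_G0_le K G0 Z (fun s hs => Submodule.subset_span ⟨s, hs, rfl⟩)
  have hpairZ : ∀ c ∈ LinearMap.ker gF, ∀ z ∈ Z,
      ∑ i, ∑ j, ((c i : K) : ℂ) * ((z j : K) : ℂ) * a i j = 0 := by
    intro c hc z hz
    refine Submodule.span_induction
      (p := fun z _ => ∑ i, ∑ j, ((c i : K) : ℂ) * ((z j : K) : ℂ) * a i j = 0) ?_ ?_ ?_ ?_ hz
    · rintro _ ⟨s, hs, rfl⟩
      exact hpair c hc s hs
    · simp
    · intro x y _ _ hx hy
      have h1 : ∀ i j, ((c i : K) : ℂ) * (((x + y) j : K) : ℂ) * a i j =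
          ((c i : K) : ℂ) * ((x j : K) : ℂ) * a i j + ((c i : K) : ℂ) * ((y j : K) : ℂ) * a i j := by
        intro i j
        rw [Pi.add_apply]
        push_cast
        ring
      simp only [h1, Finset.sum_add_distrib, hx, hy, add_zero]
    · intro b x _ hx
      have h1 : ∀ i j, ((c i : K) : ℂ) * (((b • x) j : K) : ℂ) * a i j =
          (b : ℂ) * (((c i : K) : ℂ) * ((x j : K) : ℂ) * a i j) := by
        intro i j
        rw [Pi.smul_apply, smul_eq_mul]
        push_cast
        ring
      simp only [h1, ← Finset.mul_sum, hx, mul_zero]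
  obtain ⟨e1, v1, hv1, hev1⟩ := exists_dual (LinearMap.ker gF)
  obtain ⟨e2, v2, hv2, hev2⟩ := exists_dual Z
  have hb := hbal _ _ e1 e2 v1 v2 hev1 hev2 (fun i j => hpairZ _ (hv1 i) _ (hv2 j))
  have hkm : finrank K (LinearMap.ker gF) ≤ m := by
    have := Submodule.finrank_le (LinearMap.ker gF)
    rwa [Module.finrank_fintype_fun_eq_card, Fintype.card_fin] at this
  have hZl : finrank K Z ≤ l := by
    have := Submodule.finrank_le Z
    rwa [Module.finrank_fintype_fun_eq_card, Fintype.card_fin] at this
  obtain ⟨f0, hf0⟩ : ∃ f0, f0 = m - finrank K F := ⟨_, rfl⟩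
  have hG0l : finrank ℤ G0 ≤ l * dg K := by
    refine hGZ.trans ?_
    rw [mul_comm]
    exact Nat.mul_le_mul_right _ hZl
  refine arith_end (e := f0) (g := finrank K Z) (R := finrank ℤ Rm) (G := finrank ℤ G0)
    (by omega) (by omega) hZl hκ1 ?_ hGZ hG0l ?_ ?_
  · have h1 : dg K * (finrank K F + f0) = m * dg K := by
      rw [mul_comm, hf0]
      congr 1
      omega
    have h2 : dg K * (finrank K F + f0) = dg K * finrank K F + dg K * f0 := by ring
    omega
  · refine le_trans (Nat.add_le_add_right (Nat.mul_le_mul_left _ ?_) _) hb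
    omega
  · refine hineq.trans (Nat.mul_le_mul_right _ ?_)
    omega

variable {p : ℕ} [Fact p.Prime]

/-- **Waldschmidt's bound for the rank**, balanced matrices, algebraic coefficients. -/
theorem rank_bal_Q (m l r : ℕ) (X : Fin m → Fin r → ℂ_[p]) (Y : Fin r → Fin l → ℂ_[p])
    (a : Fin m → Fin l → ℂ_[p])
    (ha : ∀ i j, a i j ∈ Submodule.span (algebraicClosure ℚ ℂ_[p])
      ((LgP p (𝕂 := ℂ_[p]) : Submodule ℚ ℂ_[p]) : Set ℂ_[p]))
    (hXY : ∀ i j, a i j = ∑ ρ, X i ρ * Y ρ j)
    (hbal : Bal (algebraMap (algebraicClosure ℚ ℂ_[p]) ℂ_[p]) m l a) : m * l ≤ r * (m + l) := by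
  classical
  obtain ⟨θ⟩ := exists_theta p
  have ha' := fun i j => Submodule.mem_span_set'.1 (ha i j)
  choose n c u hcu using ha'
  -- the number field
  obtain ⟨K, hK, hKmem⟩ := exists_fieldP (E := ℂ)
    (Finset.univ.biUnion fun ij : Fin m × Fin l =>
      Finset.univ.image fun k : Fin (n ij.1 ij.2) => θ ((c ij.1 ij.2 k : _) : ℂ_[p])) (by
      intro z hz
      simp only [Finset.mem_biUnion, Finset.mem_univ, true_and, Finset.mem_image] at hz
      obtain ⟨ij, k, rfl⟩ := hz
      exact alg_map θ (mem_algebraicClosure_iff.1 (c ij.1 ij.2 k).2))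
  have hfd : FiniteDimensional ℚ K := hK.to_finiteDimensional
  have hmem : ∀ i j, θ (a i j) ∈ Submodule.span K ((Lθ p θ : Submodule ℚ ℂ) : Set ℂ) := by
    intro i j
    rw [← hcu i j, map_sum]
    refine Submodule.sum_mem _ fun k _ => ?_
    have h1 : θ ((c i j k : algebraicClosure ℚ ℂ_[p]) • ((u i j k : _) : ℂ_[p])) =
        (⟨θ (c i j k : ℂ_[p]), hKmem _ (by
          simp only [Finset.mem_biUnion, Finset.mem_univ, true_and, Finset.mem_image]
          exact ⟨(i, j), k, rfl⟩)⟩ : K) • θ ((u i j k : _) : ℂ_[p]) := by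
      rw [Algebra.smul_def, map_mul]
      rfl
    rw [h1]
    refine Submodule.smul_mem _ _ (Submodule.subset_span ?_)
    rw [SetLike.mem_coe, mem_Lθ, θ.symm_apply_apply]
    exact (u i j k).2
  have hrep := fun i j => span_KP K (Lθ p θ) (hmem i j)
  choose v hv hva using hrep
  refine rank_bal_K K (Lθ p θ) (obsProp0_padic p Pool.Agent.H301R2.SSE.zeg θ) m l r
    (fun i ρ => θ (X i ρ)) (fun ρ j => θ (Y ρ j)) (fun i j => θ (a i j)) v hv hva ?_ ?_
  · intro i j
    rw [hXY, map_sum]
    exact Finset.sum_congr rfl fun ρ _ => map_mul θ _ _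
  · intro n k e e' f g hf hg hfg
    have h1 : ∀ z : K, IsAlgebraic ℚ (θ.symm ((z : K) : ℂ)) := fun z =>
      alg_symm θ ((Algebra.IsAlgebraic.isAlgebraic (R := ℚ) z).algebraMap (A := ℂ))
    refine hbal n k e e'
      (fun i x => ⟨θ.symm ((f i x : K) : ℂ), mem_algebraicClosure_iff.2 (h1 _)⟩)
      (fun i x => ⟨θ.symm ((g i x : K) : ℂ), mem_algebraicClosure_iff.2 (h1 _)⟩) ?_ ?_ ?_
    · intro i i'
      apply Subtype.ext
      show θ.symm ((f i' (e i) : K) : ℂ) = _
      rw [hf]
      split_ifs
      · simp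
      · simp
    · intro i i'
      apply Subtype.ext
      show θ.symm ((g i' (e' i) : K) : ℂ) = _
      rw [hg]
      split_ifs
      · simp
      · simp
    · intro i j
      have h2 := congrArg θ.symm (hfg i j)
      rw [map_zero] at h2
      rw [← h2, map_sum]
      refine Finset.sum_congr rfl fun x _ => ?_
      rw [map_sum]
      refine Finset.sum_congr rfl fun y _ => ?_
      rw [map_mul, map_mul, θ.symm_apply_apply]
      rfl

end Pool.Agent.L7h93.SR
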